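import Pool.Agent.Helper27.HZ.Stm

/-!
# Nonvanishing of the derivative in rank one directions: Hermitian version
-/

set_option autoImplicit false
set_option linter.unusedSectionVars false

open scoped BigOperators
open MvPolynomial

namespace Pool.Agent.Helper48.HZ

open Pool.Agent.Helper27.HZ

section
variable {J : Type} [Fintype J] [DecidableEq J]

theorem hf_eq (M : Matrix J J ℂ) (x : J → ℂ) : hf M x = star x ⬝ᵥ M.mulVec x := by
  unfold hf
  simp only [dotProduct, Matrix.mulVec, Finset.mul_sum, Pi.star_apply]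
  refine Finset.sum_congr rfl fun i _ => Finset.sum_congr rfl fun j _ => ?_
  rw [← Complex.star_def]
  ring

theorem hf_hc (T M : Matrix J J ℂ) (x : J → ℂ) : hf (hc T M) x = hf M (T.mulVec x) := by
  rw [hf_eq, hf_eq, hc, Matrix.star_mulVec, ← Matrix.dotProduct_mulVec, Matrix.mulVec_mulVec,
    Matrix.mulVec_mulVec, Matrix.mul_assoc]

theorem hq_hc (T M : Matrix J J ℂ) (x : J → ℂ) : hq (hc T M) x = hq M (T.mulVec x) := by
  rw [hq, hq, hf_hc]

theorem hi_hc (T M : Matrix J J ℂ) (x : J → ℂ) : hi (hc T M) x = hi M (T.mulVec x) := by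
  rw [hi, hi, hf_hc]

theorem Hm_iff (M : Matrix J J ℂ) : Hm M ↔ M.conjTranspose = M := by
  constructor
  · intro h
    ext i j
    rw [Matrix.conjTranspose_apply, h i j]
    simp
  · intro h i j
    rw [← Complex.star_def, ← Matrix.conjTranspose_apply, h]

theorem Hm_hc (T M : Matrix J J ℂ) (h : Hm M) : Hm (hc T M) := by
  rw [Hm_iff] at h ⊢
  rw [hc, Matrix.conjTranspose_mul, Matrix.conjTranspose_mul, Matrix.conjTranspose_conjTranspose, h,
    Matrix.mul_assoc]

theorem AdH_hc {r : ℕ} {θ : ℝ} {A0 : Matrix J J ℂ} {A : Fin r → Matrix J J ℂ} (h : AdH θ A0 A)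
    (T : Matrix J J ℂ) : AdH θ (hc T A0) (fun k => hc T (A k)) := by
  refine ⟨Hm_hc T A0 h.herm0, fun k => Hm_hc T (A k) (h.herm k), fun x => ?_, fun x => ?_⟩
  · rw [hq_hc]
    exact h.nonneg _
  · simp only [hq_hc]
    exact h.bd _

end

theorem hf_sub {n : ℕ} (M : Matrix (Fin (n + 1)) (Fin (n + 1)) ℂ) (x : Fin n → ℂ) :
    hf (M.submatrix Fin.succ Fin.succ) x = hf M (Fin.cons 0 x) := by
  unfold hf
  rw [Fin.sum_univ_succ]
  simp [Fin.sum_univ_succ]

theorem hq_sub {n : ℕ} (M : Matrix (Fin (n + 1)) (Fin (n + 1)) ℂ) (x : Fin n → ℂ) :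
    hq (M.submatrix Fin.succ Fin.succ) x = hq M (Fin.cons 0 x) := by
  rw [hq, hq, hf_sub]

theorem hi_sub {n : ℕ} (M : Matrix (Fin (n + 1)) (Fin (n + 1)) ℂ) (x : Fin n → ℂ) :
    hi (M.submatrix Fin.succ Fin.succ) x = hi M (Fin.cons 0 x) := by
  rw [hi, hi, hf_sub]

theorem AdH_sub {n r : ℕ} {θ : ℝ} {A0 : Matrix (Fin (n + 1)) (Fin (n + 1)) ℂ}
    {A : Fin r → Matrix (Fin (n + 1)) (Fin (n + 1)) ℂ} (h : AdH θ A0 A) :
    AdH θ (A0.submatrix Fin.succ Fin.succ) (fun k => (A k).submatrix Fin.succ Fin.succ) := by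
  refine ⟨fun i j => h.herm0 _ _, fun k i j => h.herm k _ _, fun x => ?_, fun x => ?_⟩
  · rw [hq_sub]
    exact h.nonneg _
  · simp only [hq_sub]
    exact h.bd _

/-- an invertible matrix which sends a nonzero vector to the first unit vector -/
theorem exists_unit {n : ℕ} (e : Fin (n + 1) → ℂ) (he : e ≠ 0) :
    ∃ T : Matrix (Fin (n + 1)) (Fin (n + 1)) ℂ, T.det ≠ 0 ∧
      T.conjTranspose.mulVec e = Pi.single 0 1 := by
  obtain ⟨p, hp⟩ : ∃ p, e p ≠ 0 := by
    by_contra hc
    push Not at hc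
    exact he (funext hc)
  set N : Matrix (Fin (n + 1)) (Fin (n + 1)) ℂ :=
    (1 : Matrix (Fin (n + 1)) (Fin (n + 1)) ℂ).updateCol p e with hN
  set B : Matrix (Fin (n + 1)) (Fin (n + 1)) ℂ := N.submatrix id (Equiv.swap 0 p) with hB
  have hNd : N.det = e p := by
    rw [hN, ← Matrix.cramer_apply, Matrix.cramer_one]
    rfl
  have hBd : B.det ≠ 0 := by
    rw [hB, Matrix.det_permute', hNd]
    refine mul_ne_zero ?_ hp
    exact_mod_cast (Equiv.Perm.sign (Equiv.swap 0 p)).ne_zero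
  have hBe : B.mulVec (Pi.single 0 1) = e := by
    funext i
    rw [Matrix.mulVec_single_one]
    show N i (Equiv.swap 0 p 0) = e i
    rw [Equiv.swap_apply_left, hN, Matrix.updateCol_self]
  refine ⟨(B⁻¹).conjTranspose, ?_, ?_⟩
  · rw [Matrix.det_conjTranspose, Matrix.det_nonsing_inv, Ring.inverse_eq_inv']
    exact star_ne_zero.2 (inv_ne_zero hBd)
  · rw [Matrix.conjTranspose_conjTranspose]
    conv_lhs => rw [← hBe]
    rw [Matrix.mulVec_mulVec, Matrix.nonsing_inv_mul _ (isUnit_iff_ne_zero.2 hBd), Matrix.one_mulVec]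

theorem nondeg : NondegStm := by
  intro n p r θ IH A0 A hAd Y hYp e he
  obtain ⟨T, hT, hTe⟩ := exists_unit e he
  have hTs : Matrix.vecMul (star e) T = Pi.single 0 1 := by
    have h1 := congrArg star hTe
    rw [Matrix.star_mulVec, Matrix.conjTranspose_conjTranspose] at h1
    rw [h1]
    funext i
    by_cases hi : i = 0
    · subst hi
      simp
    · simp [hi]
  have h1 := D1_cong (Mk A0 A) T.conjTranspose T Y e (star e)
  rw [hTe, hTs, D1_single] at h1
  have h3 : (fun k => (T.conjTranspose * Mk A0 A k * T).submatrix Fin.succ Fin.succ) =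
      Mk (fun s => (hc T (A0 s)).submatrix Fin.succ Fin.succ)
        (fun s k => (hc T (A s k)).submatrix Fin.succ Fin.succ) := by
    funext k
    obtain ⟨s, k⟩ := k
    cases k with
    | none =>
      show (T.conjTranspose * (Complex.I • A0 s) * T).submatrix Fin.succ Fin.succ =
        Complex.I • (hc T (A0 s)).submatrix Fin.succ Fin.succ
      rw [Matrix.mul_smul, Matrix.smul_mul]
      rfl
    | some k => rfl
  have h2 : f (Mk (fun s => (hc T (A0 s)).submatrix Fin.succ Fin.succ)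
        (fun s k => (hc T (A s k)).submatrix Fin.succ Fin.succ))
      ((T.conjTranspose * Y * T).submatrix Fin.succ Fin.succ) ≠ 0 := by
    refine IH _ _ (fun s => AdH_sub (AdH_hc (hAd s) T)) _ ?_
    intro x hx
    rw [hi_sub]
    show 0 < hi (hc T Y) _
    rw [hi_hc]
    refine hYp _ fun h5 => hx ?_
    have h6 : (Fin.cons 0 x : Fin (n + 1) → ℂ) = 0 := Matrix.eq_zero_of_mulVec_eq_zero hT h5
    funext i
    have h7 := congrFun h6 i.succ
    rw [Fin.cons_succ] at h7
    exact h7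
  intro h0
  rw [h0, mul_zero] at h1
  rw [h3] at h1
  exact h2 h1

end Pool.Agent.Helper48.HZ
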